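import Pool.Agent.R228.PM.Main

/-!
# The means of a convex potential in the Dirichlet eigenstates need not increase

Counterexample in dimension one: `Ω = (-1, 1)` and `V(x) = 2 ε² / (1 - ε |x|)²` with
`ε = 1 / 10000`. There are an odd eigenstate with an eigenvalue close to `π²` and an even one with a
larger eigenvalue, close to `(3π/2)²`, and the mean of the potential in the first one is larger.
-/

set_option autoImplicit false

namespace Pool.Agent.Results.MP_490a28_an.IntervalCounterexample

open Pool.Agent.R228.PM Set

/-- There is a convex function `V` on `(-1, 1)` such that for every admissible eigenbasis `(u j)`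
there is an index `j` with `⟨V⟩_{j+1} < ⟨V⟩_j`. -/
theorem result : ∃ V : ℝ → ℝ, ConvexOn ℝ (Ioo (-1) 1) V ∧
    ∀ (lam : ℕ → ℝ) (u : ℕ → ℝ → ℝ), AdmissibleEigenbasis V lam u →
      ∃ j, mean V (u (j + 1)) < mean V (u j) :=
  ⟨pot, pot_convex, fun _ _ hb => counterexample hb⟩

end Pool.Agent.Results.MP_490a28_an.IntervalCounterexample
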